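import Pool.Agent.Y963.LP.Stm

/-!
# LP-BD: even subgraphs with contractible cycles are sums of faces; parity
-/

set_option autoImplicit false

namespace Pool.Agent.Y421.LP

open Finset Pool.Agent.Y963.LP

theorem even : S_EVEN := by
  intro D V _ o a s hev l hl
  have key : ∀ l m : List D, Relation.EqvGen (Insertion o a s) l m →
      (Even l.length ↔ Even m.length) := by
    intro l m h
    induction h with
    | rel l m h =>
      obtain ⟨-, -, l₁, l₂, d, rfl, hm | hm⟩ := h
      · subst hm
        simp only [List.length_append, List.length_cons, List.length_nil]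
        rw [Nat.even_add, Nat.even_add, Nat.even_add]
        simp
      · subst hm
        simp only [List.length_append, faceWalk, List.length_map, List.length_range]
        rw [Nat.even_add, Nat.even_add, Nat.even_add]
        have := hev d
        tauto
    | refl => exact Iff.rfl
    | symm _ _ _ ih => exact ih.symm
    | trans _ _ _ _ _ ih1 ih2 => exact ih1.trans ih2
  rw [key l [] hl]
  simp

section chain

variable {D : Type} [DecidableEq D]

/-- the mod 2 function of a dart -/
def wt (a : Equiv.Perm D) (e d : D) : ZMod 2 := (if d = e then 1 else 0) + (if a d = e then 1 else 0)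

/-- the mod 2 function of a list of darts -/
def chi (a : Equiv.Perm D) (l : List D) (e : D) : ZMod 2 := (l.map (wt a e)).sum

lemma chi_append (a : Equiv.Perm D) (l m : List D) (e : D) :
    chi a (l ++ m) e = chi a l e + chi a m e := by
  simp [chi]

lemma chi_cons (a : Equiv.Perm D) (d : D) (m : List D) (e : D) :
    chi a (d :: m) e = wt a e d + chi a m e := by
  simp [chi]

lemma chi_nil (a : Equiv.Perm D) (e : D) : chi a [] e = 0 := rfl

lemma chi_pair (a : Equiv.Perm D) (ha : ∀ d, a (a d) = d) (d e : D) : chi a [d, a d] e = 0 := by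
  rw [chi_cons, chi_cons, chi_nil, add_zero]
  unfold wt
  rw [ha, add_comm (if a d = e then (1 : ZMod 2) else 0)]
  exact CharTwo.add_self_eq_zero _

lemma wt_symm (a : Equiv.Perm D) (ha : ∀ d, a (a d) = d) (e d : D) : wt a (a e) d = wt a e d := by
  unfold wt
  have h1 : (a d = a e) ↔ d = e := a.injective.eq_iff
  have h2 : (d = a e) ↔ a d = e := ⟨fun h => by rw [h, ha], fun h => by rw [← h, ha]⟩
  simp only [h1, h2]
  rw [add_comm]

lemma chi_symm (a : Equiv.Perm D) (ha : ∀ d, a (a d) = d) (l : List D) (e : D) :
    chi a l (a e) = chi a l e := by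
  unfold chi
  congr 1
  exact List.map_congr_left fun d _ => wt_symm a ha e d

lemma chi_face (a s : Equiv.Perm D) (ha : ∀ d, a (a d) = d) (d : D) :
    IsBd s a (chi a (faceWalk (s * a) d)) := by
  set n := Function.minimalPeriod (s * a) d with hn
  set x : D → ZMod 2 := fun e => ∑ i ∈ range n, if ((s * a) ^ i) d = e then 1 else 0 with hx
  refine ⟨x, fun e => ?_, fun e => ?_⟩
  · simp only [hx]
    have h1 : ∀ i, (((s * a) ^ i) d = e) ↔ (((s * a) ^ (i + 1)) d = s (a e)) := by
      intro i
      rw [pow_succ', Equiv.Perm.mul_apply (s * a), Equiv.Perm.mul_apply s a]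
      rw [s.injective.eq_iff, a.injective.eq_iff]
    have hper : ((s * a) ^ n) d = d := by
      have := Function.iterate_minimalPeriod (f := (s * a)) (x := d)
      rw [← Equiv.Perm.iterate_eq_pow]
      exact this
    have h2 := Finset.sum_range_succ' (fun i => if ((s * a) ^ i) d = s (a e) then (1 : ZMod 2) else 0) n
    rw [Finset.sum_range_succ, hper, pow_zero, Equiv.Perm.one_apply] at h2
    have h3 := add_right_cancel h2
    rw [h3]
    exact Finset.sum_congr rfl fun i _ => by simp only [h1 i]
  · have h1 : ∀ l : List ℕ, chi a (l.map fun i => ((s * a) ^ i) d) e =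
        (l.map fun i => if ((s * a) ^ i) d = e then (1 : ZMod 2) else 0).sum +
        (l.map fun i => if ((s * a) ^ i) d = a e then (1 : ZMod 2) else 0).sum := by
      intro l
      induction l with
      | nil => simp [chi]
      | cons i l ih =>
        rw [List.map_cons, chi_cons, ih, List.map_cons, List.sum_cons, List.map_cons, List.sum_cons]
        have h2 : (((s * a) ^ i) d = a e) ↔ a (((s * a) ^ i) d) = e :=
          ⟨fun h => by rw [h, ha], fun h => by rw [← h, ha]⟩
        unfold wt
        simp only [h2]
        ring
    have h2 : ∀ (f : ℕ → ZMod 2) (n : ℕ), ((List.range n).map f).sum = ∑ i ∈ range n, f i := by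
      intro f n
      induction n with
      | zero => simp
      | succ n ih => rw [List.range_succ, List.map_append, List.sum_append, ih,
          Finset.sum_range_succ]; simp
    unfold faceWalk
    rw [h1, h2, h2]

lemma bd_zero (s a : Equiv.Perm D) : IsBd s a (fun _ => (0 : ZMod 2)) :=
  ⟨fun _ => 0, fun _ => rfl, fun _ => (add_zero 0).symm⟩

lemma bd_add {s a : Equiv.Perm D} {y z : D → ZMod 2} (hy : IsBd s a y) (hz : IsBd s a z) :
    IsBd s a (fun e => y e + z e) := by
  obtain ⟨u, hu1, hu2⟩ := hy
  obtain ⟨v, hv1, hv2⟩ := hz
  refine ⟨fun e => u e + v e, fun e => by simp only [hu1, hv1], fun e => ?_⟩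
  simp only [hu2, hv2]
  ring

lemma bd_congr {s a : Equiv.Perm D} {y z : D → ZMod 2} (hy : IsBd s a y) (h : ∀ e, y e = z e) :
    IsBd s a z := by
  have : y = z := funext h
  rwa [← this]

lemma chi_rel {V : Type} (o : D → V) (a s : Equiv.Perm D) (ha : ∀ d, a (a d) = d) (l m : List D)
    (h : Relation.EqvGen (Insertion o a s) l m) : IsBd s a (fun e => chi a l e + chi a m e) := by
  induction h with
  | rel l m h =>
    obtain ⟨-, -, l₁, l₂, d, rfl, hm | hm⟩ := h
    · subst hm
      refine bd_congr (bd_zero s a) fun e => ?_
      rw [chi_append, chi_append, chi_append, chi_pair a ha, add_zero]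
      exact (CharTwo.add_self_eq_zero _).symm
    · subst hm
      refine bd_congr (chi_face a s ha d) fun e => ?_
      rw [chi_append, chi_append, chi_append]
      have h1 : chi a l₁ e + chi a l₂ e + (chi a l₁ e + chi a (faceWalk (s * a) d) e + chi a l₂ e) =
        ((chi a l₁ e + chi a l₂ e) + (chi a l₁ e + chi a l₂ e)) + chi a (faceWalk (s * a) d) e := by
        ring
      rw [h1, CharTwo.add_self_eq_zero, zero_add]
  | refl l =>
    refine bd_congr (bd_zero s a) fun e => ?_
    exact (CharTwo.add_self_eq_zero _).symm
  | symm l m _ ih => exact bd_congr ih fun e => add_comm _ _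
  | trans l m n _ _ ih1 ih2 =>
    refine bd_congr (bd_add ih1 ih2) fun e => ?_
    have h1 : chi a l e + chi a m e + (chi a m e + chi a n e) =
      (chi a m e + chi a m e) + (chi a l e + chi a n e) := by ring
    rw [h1, CharTwo.add_self_eq_zero, zero_add]

lemma chi_contr {V : Type} (o : D → V) (a s : Equiv.Perm D) (ha : ∀ d, a (a d) = d) (l : List D)
    (h : Contractible o a s l) : IsBd s a (chi a l) :=
  bd_congr (chi_rel o a s ha l [] h) fun e => by rw [chi_nil, add_zero]

end chain

section graph

variable {V : Type} [Fintype V] [DecidableEq V] {G : SimpleGraph V} [DecidableRel G.Adj]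

/-- the support of a function on the darts -/
def supG (z : G.Dart → ZMod 2) (hz : ∀ d, z d.symm = z d) : SimpleGraph V where
  Adj u v := ∃ h : G.Adj u v, z ⟨(u, v), h⟩ ≠ 0
  symm := ⟨fun u v ⟨h, h1⟩ => ⟨h.symm, by
    have := hz ⟨(u, v), h⟩
    rw [← this] at h1
    exact h1⟩⟩
  loopless := ⟨fun u ⟨h, _⟩ => G.loopless.irrefl u h⟩

/-- a nonzero cycle supports a cycle -/
lemma exists_cycle {z : G.Dart → ZMod 2} (hz : ∀ d, z d.symm = z d)
    (hc : ∀ v, ∑ d ∈ Finset.univ.filter (fun d : G.Dart => d.fst = v), z d = 0)
    (h0 : ∃ d, z d ≠ 0) : ¬ (supG z hz).IsAcyclic := by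
  intro hac
  have key : ∀ n : ℕ, ∃ (u v : V) (p : (supG z hz).Walk u v), p.IsPath ∧ p.length = n + 1 := by
    intro n
    induction n with
    | zero =>
      obtain ⟨d, hd⟩ := h0
      have hadj : (supG z hz).Adj d.fst d.snd := ⟨d.adj, hd⟩
      refine ⟨d.fst, d.snd, hadj.toWalk, ?_, rfl⟩
      simp [hadj.ne]
    | succ n ih =>
      obtain ⟨u, v, p, hp, hlen⟩ := ih
      have hnil : ¬ p.Nil := by
        intro h
        have := SimpleGraph.Walk.length_eq_zero_iff.2 h
        omega
      have hadj : (supG z hz).Adj v p.penultimate := (p.adj_penultimate hnil).symm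
      obtain ⟨hG, hne⟩ := hadj
      -- a second neighbour
      have h1 : ∃ d : G.Dart, d.fst = v ∧ z d ≠ 0 ∧ d.snd ≠ p.penultimate := by
        by_contra hcon
        push Not at hcon
        have h2 := Finset.sum_eq_single_of_mem (f := z)
          (s := Finset.univ.filter (fun d : G.Dart => d.fst = v)) ⟨(v, p.penultimate), hG⟩
          (by simp) (fun d hd hne' => by
            rw [Finset.mem_filter] at hd
            by_contra h3
            have h4 := hcon d hd.2 h3
            apply hne'
            apply SimpleGraph.Dart.ext
            exact Prod.ext hd.2 h4)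
        rw [hc] at h2
        exact hne h2.symm
      obtain ⟨d, hd1, hd2, hd3⟩ := h1
      have hadj2 : (supG z hz).Adj v d.snd := by
        subst hd1
        exact ⟨d.adj, hd2⟩
      have hns : d.snd ∉ p.support := fun h => hd3 (hac.eq_penultimate_of_adj_end hp hadj2 h)
      refine ⟨u, d.snd, p.concat hadj2, hp.concat hns hadj2, ?_⟩
      rw [SimpleGraph.Walk.length_concat, hlen]
  obtain ⟨u, v, p, hp, hlen⟩ := key (Fintype.card V)
  have := hp.length_lt
  omega

/-- the boundary of a walk -/
lemma chi_walk (a : Equiv.Perm G.Dart) (ha : ∀ d : G.Dart, a d = d.symm) (v : V) :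
    ∀ {u w : V} (q : G.Walk u w),
    ∑ e ∈ Finset.univ.filter (fun d : G.Dart => d.fst = v), chi a q.darts e =
      (if u = v then 1 else 0) + (if w = v then 1 else 0) := by
  intro u w q
  induction q with
  | nil =>
    simp only [SimpleGraph.Walk.darts_nil, chi_nil, Finset.sum_const_zero]
    exact (CharTwo.add_self_eq_zero _).symm
  | @cons u x w h q ih =>
    rw [SimpleGraph.Walk.darts_cons]
    have h1 : ∑ e ∈ Finset.univ.filter (fun d : G.Dart => d.fst = v),
        wt a e ⟨(u, x), h⟩ = (if u = v then 1 else 0) + (if x = v then 1 else 0) := by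
      unfold wt
      rw [Finset.sum_add_distrib, ha]
      simp only [Finset.sum_ite_eq, Finset.mem_filter, Finset.mem_univ, true_and]
      rfl
    simp only [chi_cons]
    rw [Finset.sum_add_distrib, h1, ih]
    have h2 : (if u = v then (1 : ZMod 2) else 0) + (if x = v then 1 else 0) +
      ((if x = v then 1 else 0) + (if w = v then 1 else 0)) =
      ((if x = v then 1 else 0) + (if x = v then 1 else 0)) +
      ((if u = v then 1 else 0) + (if w = v then 1 else 0)) := by ring
    rw [h2, CharTwo.add_self_eq_zero, zero_add]

lemma wt_zero (a : Equiv.Perm G.Dart) (ha : ∀ d : G.Dart, a d = d.symm) {d e : G.Dart}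
    (h : d.edge ≠ e.edge) : wt a e d = 0 := by
  unfold wt
  rw [if_neg, if_neg, add_zero]
  · rintro rfl
    rw [ha, SimpleGraph.Dart.edge_symm] at h
    exact h rfl
  · rintro rfl
    exact h rfl

lemma chi_zero (a : Equiv.Perm G.Dart) (ha : ∀ d : G.Dart, a d = d.symm) {l : List G.Dart}
    {e : G.Dart} (h : ∀ d ∈ l, d.edge ≠ e.edge) : chi a l e = 0 := by
  induction l with
  | nil => rfl
  | cons d l ih =>
    rw [chi_cons, ih fun d hd => h d (List.mem_cons_of_mem _ hd), add_zero]
    exact wt_zero a ha (h d List.mem_cons_self)

lemma chi_one (a : Equiv.Perm G.Dart) (ha : ∀ d : G.Dart, a d = d.symm) {l : List G.Dart}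
    {e : G.Dart} (hn : (l.map (·.edge)).Nodup) (he : e ∈ l) : chi a l e = 1 := by
  induction l with
  | nil => simp at he
  | cons d l ih =>
    rw [List.map_cons, List.nodup_cons] at hn
    rw [chi_cons]
    rcases List.mem_cons.1 he with rfl | he'
    · rw [chi_zero a ha, add_zero]
      · unfold wt
        rw [if_pos rfl, if_neg, add_zero]
        rw [ha]
        exact e.symm_ne
      · intro d hd h
        exact hn.1 (List.mem_map.2 ⟨d, hd, h⟩)
    · rw [ih hn.2 he', wt_zero a ha, zero_add]
      intro h
      exact hn.1 (List.mem_map.2 ⟨e, he', h.symm⟩)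

end graph

theorem bd : S_BD := by
  intro V _ _ G _ a s ha hs W hW
  have haa : ∀ d : G.Dart, a (a d) = d := fun d => by rw [ha, ha, SimpleGraph.Dart.symm_symm]
  have key : ∀ (n : ℕ) (z : G.Dart → ZMod 2), (Finset.univ.filter fun d => z d ≠ 0).card ≤ n →
      IsCyc (fun d : G.Dart => d.fst) a z →
      (∀ d, d ∉ inner (fun d : G.Dart => d.fst) a W → z d = 0) → IsBd s a z := by
    intro n
    induction n with
    | zero =>
      intro z hn _ _
      have h1 : ∀ d, z d = 0 := by
        intro d
        by_contra h
        have : d ∈ (Finset.univ.filter fun d => z d ≠ 0) := by simp [h]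
        rw [Finset.card_eq_zero.1 (Nat.le_zero.1 hn)] at this
        simp at this
      exact bd_congr (bd_zero s a) fun e => (h1 e).symm
    | succ n ih =>
      intro z hn hz hin
      by_cases h0 : ∃ d, z d ≠ 0
      swap
      · push Not at h0
        exact bd_congr (bd_zero s a) fun e => (h0 e).symm
      have hzs : ∀ d : G.Dart, z d.symm = z d := fun d => by rw [← ha]; exact hz.1 d
      have hcyc := exists_cycle hzs hz.2 h0
      unfold SimpleGraph.IsAcyclic at hcyc
      push Not at hcyc
      obtain ⟨v, c, hc⟩ := hcyc
      have hle : supG z hzs ≤ G := fun u w h => h.1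
      set p : G.Walk v v := c.mapLe hle with hp
      have hpc : p.IsCycle := hc.mapLe hle
      have hdz : ∀ d ∈ p.darts, z d ≠ 0 := by
        intro d hd
        rw [hp, SimpleGraph.Walk.darts_map] at hd
        obtain ⟨d', -, rfl⟩ := List.mem_map.1 hd
        obtain ⟨h1, h2⟩ := d'.adj
        exact h2
      have hlen : p.length ≤ W.card := by
        have h1 : p.support.tail.length = p.length := by
          rw [List.length_tail, SimpleGraph.Walk.length_support]
          rfl
        rw [← h1, ← List.toFinset_card_of_nodup hpc.support_nodup]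
        refine Finset.card_le_card fun w hw => ?_
        rw [List.mem_toFinset, ← SimpleGraph.Walk.map_snd_darts, List.mem_map] at hw
        obtain ⟨d, hd, rfl⟩ := hw
        by_contra hcon
        refine hdz d hd (hin d ?_)
        unfold Pool.Agent.Y963.LP.inner
        rw [Finset.mem_filter]
        rintro ⟨-, -, h2⟩
        apply hcon
        rw [ha] at h2
        exact h2
      have hbd := chi_contr _ a s haa _ (hW v p hpc hlen)
      -- the smaller cycle
      set z' : G.Dart → ZMod 2 := fun e => z e + chi a p.darts e with hz'
      have hz0 : ∀ e, z e = 0 → chi a p.darts e = 0 := by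
        intro e he
        apply chi_zero a ha
        intro d hd hde
        rcases (SimpleGraph.dart_edge_eq_iff d e).1 hde with rfl | h1
        · exact hdz _ hd he
        · apply hdz _ hd
          rw [h1, hzs]
          exact he
      have h1 : IsCyc (fun d : G.Dart => d.fst) a z' := by
        refine ⟨fun d => ?_, fun v' => ?_⟩
        · simp only [hz']
          rw [hz.1 d, chi_symm a haa]
        · simp only [hz']
          rw [Finset.sum_add_distrib, hz.2 v', zero_add]
          exact (chi_walk a ha v' p).trans (CharTwo.add_self_eq_zero _)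
      have h2 : ∀ d, d ∉ inner (fun d : G.Dart => d.fst) a W → z' d = 0 := by
        intro d hd
        simp only [hz']
        rw [hin d hd, hz0 d (hin d hd), add_zero]
      have h3 : (Finset.univ.filter fun d => z' d ≠ 0).card ≤ n := by
        have hnil : p.darts ≠ [] := by
          intro h
          have := hpc.three_le_length
          rw [← SimpleGraph.Walk.length_darts, h] at this
          simp at this
        obtain ⟨e, he⟩ := List.exists_mem_of_ne_nil _ hnil
        have h4 : chi a p.darts e = 1 := chi_one a ha hpc.edges_nodup he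
        have h5 : z e = 1 := by
          have := hdz e he
          revert this
          generalize z e = t
          revert t
          decide
        have h6 : (Finset.univ.filter fun d => z' d ≠ 0) ⊂ (Finset.univ.filter fun d => z d ≠ 0) := by
          rw [Finset.ssubset_iff_of_subset]
          · refine ⟨e, by simp [h5], ?_⟩
            simp only [Finset.mem_filter, Finset.mem_univ, true_and, not_not, hz']
            rw [h4, h5]
            exact CharTwo.add_self_eq_zero _
          · intro d hd
            simp only [Finset.mem_filter, Finset.mem_univ, true_and, hz'] at hd ⊢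
            intro h
            rw [h, hz0 d h, add_zero] at hd
            exact hd rfl
        have := Finset.card_lt_card h6
        omega
      refine bd_congr (bd_add (ih z' h3 h1 h2) hbd) fun e => ?_
      simp only [hz']
      rw [add_assoc, CharTwo.add_self_eq_zero, add_zero]
  intro z hz hin
  exact key _ z le_rfl hz hin

end Pool.Agent.Y421.LP
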